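import Pool.Agent.Lib.RG58.ModMain

/-! Relators in subgroups with few generators, for `(ℤ/3 × ℤ) * (ℤ/2 × ℤ)` (helper58). -/

set_option autoImplicit false

namespace Pool.Agent.Results.MP_6b13af_al.FewGenerators

/-- the exponent sum of `x` modulo three: `x ↦ 1`, `y, z, t ↦ 0` -/
def ex : FreeGroup (Fin 4) →* Multiplicative (ZMod 3) :=
  FreeGroup.lift ![Multiplicative.ofAdd 1, 1, 1, 1]

/-- the exponent sum of `z` modulo two: `z ↦ 1`, `x, y, t ↦ 0` -/
def ez : FreeGroup (Fin 4) →* Multiplicative (ZMod 2) :=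
  FreeGroup.lift ![1, 1, Multiplicative.ofAdd 1, 1]

/-- `R` is the normal closure of `x³, z², [x, y], [z, t]`, and `r` is a triple that generates `R`
as a normal subgroup modulo `Q = R⁶[R, R]`. Let the subgroup `U` of the free group be generated by
a finite set `E`, and let `T` be a set of indices such that for every `i` in `T` the group `U`
contains a conjugate of an element of `r i * Q`. Let the image of `U` in the quotient by `R` be
isomorphic to the free product of `n` nontrivial groups. Suppose that `n ≤ 1`, or that each factor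
contains the image of an element whose exponent sum of `x` is not divisible by three, or only
images of elements whose exponent sum of `z` is even, or is free, or that each factor contains the
image of an element whose exponent sum of `z` is odd, or only images of elements whose exponent sum
of `x` is divisible by three, or is free. Then `|T| + n ≤ |E|`. -/
theorem result (R : Subgroup (FreeGroup (Fin 4))) [R.Normal]
    (hR : R = Subgroup.normalClosure
      ({FreeGroup.of 0 ^ 3,
        FreeGroup.of 2 ^ 2,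
        FreeGroup.of 0 * FreeGroup.of 1 * (FreeGroup.of 0)⁻¹ * (FreeGroup.of 1)⁻¹,
        FreeGroup.of 2 * FreeGroup.of 3 * (FreeGroup.of 2)⁻¹ * (FreeGroup.of 3)⁻¹} :
        Set (FreeGroup (Fin 4))))
    (r : Fin 3 → FreeGroup (Fin 4))
    (hr : Subgroup.normalClosure (Set.range r ∪ {a | ∃ b ∈ R, a = b ^ 6} ∪
      {a | ∃ b ∈ R, ∃ c ∈ R, a = b * c * b⁻¹ * c⁻¹}) = R)
    (T : Finset (Fin 3)) (E : Finset (FreeGroup (Fin 4)))
    (h : ∀ i ∈ T, ∃ g s : FreeGroup (Fin 4),
      s ∈ Subgroup.closure ({a | ∃ b ∈ R, a = b ^ 6} ∪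
        {a | ∃ b ∈ R, ∃ c ∈ R, a = b * c * b⁻¹ * c⁻¹}) ∧
      g * (r i * s) * g⁻¹ ∈ Subgroup.closure (E : Set (FreeGroup (Fin 4))))
    (n : ℕ) (G : Fin n → Type) [∀ j, Group (G j)] [∀ j, Nontrivial (G j)]
    (f : Monoid.CoprodI G ≃* Subgroup.map (QuotientGroup.mk' R)
      (Subgroup.closure (E : Set (FreeGroup (Fin 4)))))
    (hn : n ≤ 1 ∨
      (∀ j,
        (∃ g : FreeGroup (Fin 4), ∃ y : G j,
          QuotientGroup.mk' R g = f (Monoid.CoprodI.of y) ∧ ex g ≠ 1) ∨
        (∀ g : FreeGroup (Fin 4), ∀ y : G j,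
          QuotientGroup.mk' R g = f (Monoid.CoprodI.of y) → ez g = 1) ∨
        IsFreeGroup (G j)) ∨
      (∀ j,
        (∃ g : FreeGroup (Fin 4), ∃ y : G j,
          QuotientGroup.mk' R g = f (Monoid.CoprodI.of y) ∧ ez g ≠ 1) ∨
        (∀ g : FreeGroup (Fin 4), ∀ y : G j,
          QuotientGroup.mk' R g = f (Monoid.CoprodI.of y) → ex g = 1) ∨
        IsFreeGroup (G j))) :
    T.card + n ≤ E.card := by
  subst hR
  have hg : RG58.Gen r := by
    refine ⟨fun k => ?_, hr.symm.le⟩
    exact hr.le (Subgroup.subset_normalClosure (Or.inl (Or.inl ⟨k, rfl⟩)))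
  exact RG58.thmK6 hg h f hn

end Pool.Agent.Results.MP_6b13af_al.FewGenerators
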