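import Pool.Agent.Lib.T3B.Final

/-!
# A relator in a free factor of rank two

Let `R` be the normal closure of `x ^ 3`, `z ^ 2`, `[x, y]`, `[z, t]` in the free group on
`x, y, z, t`, and let `e_0, ..., e_3` be any basis of this free group (`e_i = α (of i)`, where `α`
is an automorphism). If `R` is the normal closure of three elements, one of which is conjugate to
a word in at most two of the `e_i`, `i ∈ A`, and another one to a word in the `e_i`, `i ∈ B`, then
`A` and `B` together contain all four indices, and either `A` has two elements and meets `B`, or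
`A = {p}` and `e_p` belongs to `R`.
-/

set_option autoImplicit false

namespace Pool.Agent.Results.MP_6b13af_al.FreeFactorRelators

open Pool.Agent.T3R Pool.Agent.T3B

theorem result (r : Fin 3 → FreeGroup (Fin 4))
    (hr : Subgroup.normalClosure (Set.range r) =
        Subgroup.normalClosure
          ({FreeGroup.of 0 ^ 3,
            FreeGroup.of 2 ^ 2,
            FreeGroup.of 0 * FreeGroup.of 1 * (FreeGroup.of 0)⁻¹ * (FreeGroup.of 1)⁻¹,
            FreeGroup.of 2 * FreeGroup.of 3 * (FreeGroup.of 2)⁻¹ * (FreeGroup.of 3)⁻¹} :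
            Set (FreeGroup (Fin 4))))
    (α : FreeGroup (Fin 4) ≃* FreeGroup (Fin 4))
    (i j : Fin 3) (hij : i ≠ j) (A B : Finset (Fin 4)) (hA : A.card ≤ 2)
    (g h : FreeGroup (Fin 4))
    (hi : g * r i * g⁻¹ ∈
      Subgroup.closure ((fun a => α (FreeGroup.of a)) '' (A : Set (Fin 4))))
    (hj : h * r j * h⁻¹ ∈
      Subgroup.closure ((fun b => α (FreeGroup.of b)) '' (B : Set (Fin 4)))) :
    A ∪ B = Finset.univ ∧
      ((A.card = 2 ∧ (A ∩ B).Nonempty) ∨
        ∃ p, A = {p} ∧ α (FreeGroup.of p) ∈ Subgroup.normalClosure (Set.range r)) := by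
  obtain ⟨k, hk⟩ := exists_other i j hij
  have hr' : Subgroup.normalClosure ({g * r i * g⁻¹, h * r j * h⁻¹, r k} :
      Set (FreeGroup (Fin 4))) = RR := by
    refine Eq.trans (le_antisymm ?_ ?_) hr
    · refine Subgroup.normalClosure_le_normal ?_
      intro x hx
      rcases hx with hx | hx | hx
      · rw [hx]
        exact Subgroup.Normal.conj_mem Subgroup.normalClosure_normal _
          (Subgroup.subset_normalClosure (Set.mem_range_self i)) g
      · rw [hx]
        exact Subgroup.Normal.conj_mem Subgroup.normalClosure_normal _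
          (Subgroup.subset_normalClosure (Set.mem_range_self j)) h
      · have hx' : x = r k := hx
        rw [hx']
        exact Subgroup.subset_normalClosure (Set.mem_range_self k)
    · refine Subgroup.normalClosure_le_normal ?_
      rintro _ ⟨l, rfl⟩
      rcases hk l with rfl | rfl | rfl
      · have h1 := Subgroup.Normal.conj_mem Subgroup.normalClosure_normal _
          (Subgroup.subset_normalClosure (show g * r l * g⁻¹ ∈
            ({g * r l * g⁻¹, h * r j * h⁻¹, r k} : Set (FreeGroup (Fin 4))) from Or.inl rfl)) g⁻¹
        have h2 : g⁻¹ * (g * r l * g⁻¹) * g⁻¹⁻¹ = r l := by group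
        rwa [h2] at h1
      · have h1 := Subgroup.Normal.conj_mem Subgroup.normalClosure_normal _
          (Subgroup.subset_normalClosure (show h * r l * h⁻¹ ∈
            ({g * r i * g⁻¹, h * r l * h⁻¹, r k} : Set (FreeGroup (Fin 4))) from
              Or.inr (Or.inl rfl))) h⁻¹
        have h2 : h⁻¹ * (h * r l * h⁻¹) * h⁻¹⁻¹ = r l := by group
        rwa [h2] at h1
      · exact Subgroup.subset_normalClosure (Or.inr (Or.inr rfl))
  rw [hr]
  exact main_basis α A B hA _ _ _ hr' hi hj

end Pool.Agent.Results.MP_6b13af_al.FreeFactorRelators
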