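import Mathlib
import Pool.Agent.Lib.Rel3.Basic
import Pool.Agent.Lib.Rel3.Tests

set_option autoImplicit false

open Subgroup Pool.Agent.Lib.Rel3

namespace Pool.Agent.Results.MP_6b13af_al.StandardRelators

theorem span_top {k : Type} [Field k] (e : Fin 4 → (Fin 3 → k))
    (h : ∀ j : Fin 3, (Pi.single j 1 : Fin 3 → k) ∈ Submodule.span k (Set.range e)) :
    Submodule.span k (Set.range e) = ⊤ := by
  rw [eq_top_iff]
  intro v _
  rw [pi_eq_sum_univ v]
  refine Submodule.sum_mem _ fun j _ => Submodule.smul_mem _ _ ?_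
  have := h j
  convert this using 1
  funext i
  simp [Pi.single_apply, eq_comm]

/-- A field of characteristic 2 with a primitive cube root of unity. -/
theorem exists_omega : ∃ ω : (AlgebraicClosure (ZMod 2))ˣ,
    (ω : AlgebraicClosure (ZMod 2)) ^ 2 + ω + 1 = 0 := by
  obtain ⟨ω, hω⟩ := IsAlgClosed.exists_root
    (Polynomial.X ^ 2 + Polynomial.X + 1 : Polynomial (AlgebraicClosure (ZMod 2)))
    (by
      have : (Polynomial.X ^ 2 + Polynomial.X + 1 :
          Polynomial (AlgebraicClosure (ZMod 2))).degree = 2 := by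
        compute_degree!
      rw [this]; decide)
  have hω' : ω ^ 2 + ω + 1 = 0 := by simpa [Polynomial.IsRoot] using hω
  have hω0 : ω ≠ 0 := by
    rintro rfl
    simp at hω'
  exact ⟨Units.mk0 ω hω0, hω'⟩

theorem two_eq : (2 : AlgebraicClosure (ZMod 2)) = 0 := by
  have := CharP.cast_eq_zero (AlgebraicClosure (ZMod 2)) 2
  exact_mod_cast this

section

variable {k : Type} [Field k]

theorem omega_ne_one (h2 : (2 : k) = 0) (ω : kˣ) (hω : (ω : k) ^ 2 + ω + 1 = 0) :
    (ω : k) ≠ 1 := by
  intro h1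
  rw [h1] at hω
  exact one_ne_zero (α := k) (by linear_combination hω - h2)

theorem omega_cube (ω : kˣ) (hω : (ω : k) ^ 2 + ω + 1 = 0) : ω ^ 3 = 1 := by
  ext; push_cast; linear_combination ((ω : k) - 1) * hω

theorem test0_span (h2 : (2 : k) = 0) (ω : kˣ) (hω : (ω : k) ^ 2 + ω + 1 = 0) :
    Submodule.span k (Set.range (test0 ω hω h2).e) = ⊤ := by
  have hω1 : (ω : k) - 1 ≠ 0 := sub_ne_zero.2 (omega_ne_one h2 ω hω)
  refine span_top _ fun j => ?_
  fin_cases j
  · have : (Pi.single 0 1 : Fin 3 → k) = ((ω : k) - 1)⁻¹ • ![(ω : k) - 1, 0, 0] := by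
      funext i; fin_cases i <;> simp [hω1]
    simp only [Fin.zero_eta]
    rw [this]
    exact Submodule.smul_mem _ _ (Submodule.subset_span ⟨2, rfl⟩)
  · have : (Pi.single 1 1 : Fin 3 → k) = ![0, 1, 0] := by
      funext i; fin_cases i <;> simp
    simp only [Fin.mk_one]
    rw [this]
    exact Submodule.subset_span ⟨1, rfl⟩
  · have : (Pi.single 2 1 : Fin 3 → k) = ![0, 0, 1] := by
      funext i; fin_cases i <;> simp
    simp only [Fin.reduceFinMk]
    rw [this]
    exact Submodule.subset_span ⟨3, rfl⟩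

theorem test0_chi (h2 : (2 : k) = 0) (ω : kˣ) (hω : (ω : k) ^ 2 + ω + 1 = 0)
    (g : FreeGroup (Fin 4)) : (test0 ω hω h2).χ g = ω ^ ex 0 g :=
  lift_zpow _ 0 ω rfl (fun j hj => by fin_cases j <;> simp_all) g

theorem test1_chi (h3 : (3 : k) = 0)
    (g : FreeGroup (Fin 4)) : (test1 h3).χ g = (-1) ^ ex 2 g :=
  lift_zpow _ 2 (-1) rfl (fun j hj => by fin_cases j <;> simp_all) g

end

theorem h23 : (3 : ZMod 3) = 0 := by decide

theorem h22 : (2 : ZMod 2) = 0 := by decide

theorem test1_span : Submodule.span (ZMod 3) (Set.range (test1 h23).e) = ⊤ := by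
  refine span_top _ fun j => ?_
  fin_cases j
  · exact Submodule.subset_span ⟨3, by funext i; fin_cases i <;> rfl⟩
  · exact Submodule.subset_span ⟨0, by funext i; fin_cases i <;> rfl⟩
  · exact Submodule.subset_span ⟨2, by funext i; fin_cases i <;> rfl⟩

theorem test2_span : Submodule.span (ZMod 2) (Set.range (test2 h22).e) = ⊤ := by
  refine span_top _ fun j => ?_
  fin_cases j
  · exact Submodule.subset_span ⟨0, by funext i; fin_cases i <;> rfl⟩
  · exact Submodule.subset_span ⟨1, by funext i; fin_cases i <;> rfl⟩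
  · exact Submodule.subset_span ⟨3, by funext i; fin_cases i <;> rfl⟩

theorem test3_span : Submodule.span (ZMod 3) (Set.range (test3 h23).e) = ⊤ := by
  refine span_top _ fun j => ?_
  fin_cases j
  · have : (Pi.single 0 1 : Fin 3 → ZMod 3) = (2 : ZMod 3) • ![2, 0, 0] := by
      funext i; fin_cases i <;> rfl
    simp only [Fin.zero_eta]
    rw [this]
    exact Submodule.smul_mem _ _ (Submodule.subset_span ⟨1, rfl⟩)
  · exact Submodule.subset_span ⟨0, by funext i; fin_cases i <;> rfl⟩
  · exact Submodule.subset_span ⟨2, by funext i; fin_cases i <;> rfl⟩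

/-- Let `r 0, r 1, r 2` generate `R` (the normal closure of `x^3, z^2, [x,y], [z,t]` in the free
group on `x, y, z, t`) as a normal subgroup modulo `R^6[R,R]`, let `S` be a set of standard relators
and `s` in `S`. Then fewer than `|S|` of the `r i` lie in `N s S`. -/
theorem result (r : Fin 3 → FreeGroup (Fin 4))
    (hr : normalClosure (Set.range r ∪ {a | ∃ b ∈ R, a = b ^ 6} ∪
      {a | ∃ b ∈ R, ∃ c ∈ R, a = b * c * b⁻¹ * c⁻¹}) = R)
    (S : Finset (Fin 4)) (s : Fin 4) (hs : s ∈ S) :
    {i : Fin 3 | r i ∈ N s (S : Set (Fin 4))}.ncard < S.card := by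
  fin_cases s
  · obtain ⟨ω, hω⟩ := exists_omega
    have h3 : ω ^ (3 : ℤ) = 1 := by exact_mod_cast omega_cube ω hω
    refine (test0 ω hω two_eq).main 0 ?_ ?_
      (by funext j; fin_cases j <;> rfl) (by linear_combination 3 * two_eq)
      (test0_span two_eq ω hω) r hr S hs
    · rintro g (⟨hg, u, rfl, hd⟩ | ⟨w, hw, rfl⟩) j
      · refine (test0 ω hω two_eq).pow_bot u 3 hg ?_ j
        rw [test0_chi]
        intro h1
        have h1' : ω ^ ex 0 u = 1 := Units.ext h1
        have hcop : IsCoprime (3 : ℤ) (ex 0 u) := by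
          rw [Int.isCoprime_iff_gcd_eq_one]
          exact (Int.prime_three.coprime_iff_not_dvd.2 hd : _) |> Int.isCoprime_iff_gcd_eq_one.1
        obtain ⟨a, b, hab⟩ := hcop
        have : ω ^ (1 : ℤ) = 1 := by
          rw [← hab, zpow_add, mul_comm a, mul_comm b, zpow_mul, zpow_mul, h3, h1']
          simp
        rw [zpow_one] at this
        exact omega_ne_one two_eq ω hω (by rw [this]; rfl)
      · exact (test0 ω hω two_eq).pow_R w 2 hw (by exact_mod_cast two_eq) j
    · intro a ha
      obtain ⟨n, hn⟩ : (3 : ℤ) ∣ ex 0 a := ha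
      rw [test0_chi, hn, zpow_mul, h3, one_zpow]
  · refine (test1 h23).main 1 ?_ ?_
      (by funext j; fin_cases j <;> rfl) (by decide) test1_span r hr S hs
    · rintro g (⟨hg, u, rfl, hd⟩ | ⟨w, hw, rfl⟩) j
      · refine (test1 h23).pow_bot u 2 hg ?_ j
        have ho : Odd (ex 2 u) := by
          rw [← Int.not_even_iff_odd, even_iff_two_dvd]; exact hd
        rw [test1_chi, ho.neg_one_zpow]
        decide
      · exact (test1 h23).pow_R w 3 hw (by decide) j
    · intro a ha
      obtain ⟨n, hn⟩ : (2 : ℤ) ∣ ex 2 a := ha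
      rw [test1_chi, hn, zpow_mul]
      have : (-1 : (ZMod 3)ˣ) ^ (2 : ℤ) = 1 := by decide
      rw [this, one_zpow]
  · refine (test2 h22).main 2 ?_ ?_
      (by funext j; fin_cases j <;> rfl) (by decide) test2_span r hr S hs
    · rintro g ⟨-, u, rfl, hd⟩ j
      exact test2_sq h22 u hd j
    · intro a _
      exact (lift_zpow _ 0 1 rfl (fun j hj => by fin_cases j <;> rfl) a).trans (one_zpow _)
  · refine (test3 h23).main 3 ?_ ?_
      (by funext j; fin_cases j <;> rfl) (by decide) test3_span r hr S hs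
    · rintro g ⟨-, u, rfl, hd⟩ j
      exact test3_cube h23 u hd j
    · intro a _
      exact (lift_zpow _ 0 1 rfl (fun j hj => by fin_cases j <;> rfl) a).trans (one_zpow _)

end Pool.Agent.Results.MP_6b13af_al.StandardRelators
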