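import Pool.Agent.Lib.RG58.CuFin

/-! Products of two squares or two cubes among three relators of `(ℤ/3 × ℤ) * (ℤ/2 × ℤ)`
(helper58). -/

set_option autoImplicit false

namespace Pool.Agent.Results.MP_6b13af_al.TwoPowers

/-- `R` is the normal closure of `x³, z², [x, y], [z, t]`, and `r` is a triple that generates `R`
as a normal subgroup modulo `R⁶[R, R]`. If `r i = aᵖ bᵖ` modulo `R⁶[R, R]`, with `p = 2` or
`p = 3`, then exactly one of `a`, `b` lies in `R`. -/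
theorem result (R : Subgroup (FreeGroup (Fin 4)))
    (hR : R = Subgroup.normalClosure
      ({FreeGroup.of 0 ^ 3,
        FreeGroup.of 2 ^ 2,
        FreeGroup.of 0 * FreeGroup.of 1 * (FreeGroup.of 0)⁻¹ * (FreeGroup.of 1)⁻¹,
        FreeGroup.of 2 * FreeGroup.of 3 * (FreeGroup.of 2)⁻¹ * (FreeGroup.of 3)⁻¹} :
        Set (FreeGroup (Fin 4))))
    (r : Fin 3 → FreeGroup (Fin 4))
    (hr : Subgroup.normalClosure (Set.range r ∪ {a | ∃ b ∈ R, a = b ^ 6} ∪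
      {a | ∃ b ∈ R, ∃ c ∈ R, a = b * c * b⁻¹ * c⁻¹}) = R)
    (i : Fin 3) (p : ℕ) (hp : p = 2 ∨ p = 3) (a b s : FreeGroup (Fin 4))
    (hs : s ∈ Subgroup.closure ({a | ∃ b ∈ R, a = b ^ 6} ∪
      {a | ∃ b ∈ R, ∃ c ∈ R, a = b * c * b⁻¹ * c⁻¹}))
    (hi : r i = a ^ p * b ^ p * s) :
    (a ∈ R ∧ b ∉ R) ∨ (a ∉ R ∧ b ∈ R) := by
  subst hR
  have hg : RG58.Gen r := by
    refine ⟨fun k => ?_, hr.symm.le⟩
    exact hr.le (Subgroup.subset_normalClosure (Or.inl (Or.inl ⟨k, rfl⟩)))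
  exact RG58.two_powers hg i hp hs hi

end Pool.Agent.Results.MP_6b13af_al.TwoPowers
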